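import Mathlib

set_option autoImplicit false

open Filter Topology

namespace Pool.Agent.H7.Mont

/-- The exponent of the monomial `z₁^j z₂^k`. -/
noncomputable def expo (j k : ℕ) : Fin 2 →₀ ℕ := Finsupp.single 0 j + Finsupp.single 1 k

/-- `S` is an interpolation set for type `(n, ν)`: it has exactly
`(n+1)(n+2)/2 + (ν+1)(ν+2)/2 - 1` elements, contains all `(j, k)` with `j + k ≤ n`, and is
downward closed. -/
structure IsInterpolationSet (n ν : ℕ) (S : Finset (ℕ × ℕ)) : Prop where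
  card_eq : S.card = (n + 1) * (n + 2) / 2 + (ν + 1) * (ν + 2) / 2 - 1
  triangle : ∀ j k, j + k ≤ n → (j, k) ∈ S
  lower : ∀ j k l m, (j, k) ∈ S → l ≤ j → m ≤ k → (l, m) ∈ S

/-- `P / Q` is a rational approximant of type `(n, ν)` to the power series `f` corresponding to
the interpolation set `S`. -/
structure IsApproximant (n ν : ℕ) (S : Finset (ℕ × ℕ)) (f : MvPowerSeries (Fin 2) ℂ)
    (P Q : MvPolynomial (Fin 2) ℂ) : Prop where
  degP : P.totalDegree ≤ n
  degQ : Q.totalDegree ≤ ν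
  Q_ne : Q ≠ 0
  interp : ∀ p ∈ S, MvPowerSeries.coeff (expo p.1 p.2)
    ((Q : MvPowerSeries (Fin 2) ℂ) * f - (P : MvPowerSeries (Fin 2) ℂ)) = 0

/-- The power series `F` is the Taylor series at `0` of an entire function on `ℂ²`. -/
def IsEntire (F : MvPowerSeries (Fin 2) ℂ) : Prop :=
  ∀ z : Fin 2 → ℂ, Summable (fun m : Fin 2 →₀ ℕ => MvPowerSeries.coeff m F * ∏ i, z i ^ m i)

/-- The value at `z` of the entire function with Taylor series `F`. -/
noncomputable def value (F : MvPowerSeries (Fin 2) ℂ) (z : Fin 2 → ℂ) : ℂ :=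
  ∑' m : Fin 2 →₀ ℕ, MvPowerSeries.coeff m F * ∏ i, z i ^ m i

/-- `P n / Q n → F / G` on `ℂ² \ {G = 0}`: for each compact `K` in that set, `Q n` has no zero on
`K` for all large `n` and `P n / Q n → F / G` uniformly on `K`. -/
def ConvergesOff (F : MvPowerSeries (Fin 2) ℂ) (G : MvPolynomial (Fin 2) ℂ)
    (P Q : ℕ → MvPolynomial (Fin 2) ℂ) : Prop :=
  ∀ K : Set (Fin 2 → ℂ), IsCompact K → (∀ z ∈ K, MvPolynomial.eval z G ≠ 0) →
    (∀ᶠ n in atTop, ∀ z ∈ K, MvPolynomial.eval z (Q n) ≠ 0) ∧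
    TendstoUniformlyOn (fun n z => MvPolynomial.eval z (P n) / MvPolynomial.eval z (Q n))
      (fun z => value F z / MvPolynomial.eval z G) atTop K

end Pool.Agent.H7.Mont
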