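import Pool.Agent.H7.Mont.Defs

set_option autoImplicit false

open Filter Topology MvPolynomial

namespace Pool.Agent.H7.Mont

lemma expo_zero (j k : ℕ) : expo j k 0 = j := by simp [expo]
lemma expo_one (j k : ℕ) : expo j k 1 = k := by simp [expo]

lemma expo_inj {p q : ℕ × ℕ} (h : expo p.1 p.2 = expo q.1 q.2) : p = q := by
  refine Prod.ext ?_ ?_
  · have := congrArg (fun f => f 0) h
    simpa [expo_zero] using this
  · have := congrArg (fun f => f 1) h
    simpa [expo_one] using this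

lemma expo_le {a b c d : ℕ} : expo a b ≤ expo c d ↔ a ≤ c ∧ b ≤ d := by
  constructor
  · intro h
    have h0 := h 0
    have h1 := h 1
    rw [expo_zero, expo_zero] at h0
    rw [expo_one, expo_one] at h1
    exact ⟨h0, h1⟩
  · rintro ⟨h0, h1⟩ i
    fin_cases i
    · simpa [expo_zero] using h0
    · simpa [expo_one] using h1

lemma expo_deg (j k : ℕ) : (expo j k).sum (fun _ => id) = j + k := by
  unfold expo
  rw [Finsupp.sum_add_index' (by simp) (by simp)]
  simp

/-- the triangle -/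
def T (n : ℕ) : Finset (ℕ × ℕ) := (Finset.range (n + 1)).biUnion Finset.HasAntidiagonal.antidiagonal

lemma mem_T {n : ℕ} {p : ℕ × ℕ} : p ∈ T n ↔ p.1 + p.2 ≤ n := by
  unfold T
  rw [Finset.mem_biUnion]
  constructor
  · rintro ⟨a, ha, hp⟩
    rw [Finset.HasAntidiagonal.mem_antidiagonal] at hp
    rw [Finset.mem_range] at ha
    omega
  · intro h
    exact ⟨p.1 + p.2, Finset.mem_range.2 (by omega), Finset.HasAntidiagonal.mem_antidiagonal.2 rfl⟩

lemma card_T (n : ℕ) : (T n).card = (n + 1) * (n + 2) / 2 := by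
  have h : (T n).card = ∑ i ∈ Finset.range (n + 1), (i + 1) := by
    unfold T
    rw [Finset.card_biUnion]
    · exact Finset.sum_congr rfl fun i _ => Finset.Nat.card_antidiagonal i
    · intro i _ j _ hij
      rw [Function.onFun, Finset.disjoint_left]
      intro p hp hq
      rw [Finset.HasAntidiagonal.mem_antidiagonal] at hp hq
      exact hij (hp.symm.trans hq)
  rw [h]
  have h2 : ∀ m : ℕ, (∑ i ∈ Finset.range m, (i + 1)) * 2 = m * (m + 1) := by
    intro m
    induction m with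
    | zero => simp
    | succ m ih => rw [Finset.sum_range_succ, add_mul, ih]; ring
  have h3 := h2 (n + 1)
  rw [show n + 1 + 1 = n + 2 from rfl] at h3
  omega

/-- existence of approximants by counting -/
lemma exists_approx {n ν : ℕ} {S : Finset (ℕ × ℕ)} (hS : IsInterpolationSet n ν S)
    (f : MvPowerSeries (Fin 2) ℂ) : ∃ P Q, IsApproximant n ν S f P Q := by
  classical
  let poly : (T ν → ℂ) →ₗ[ℂ] MvPolynomial (Fin 2) ℂ :=
    ∑ p : T ν, (LinearMap.proj p : (T ν → ℂ) →ₗ[ℂ] ℂ).smulRight (monomial (expo p.1.1 p.1.2) (1:ℂ))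
  have hpoly : ∀ c, poly c = ∑ p : T ν, c p • monomial (expo p.1.1 p.1.2) (1:ℂ) := by
    intro c
    simp only [poly, LinearMap.sum_apply, LinearMap.smulRight_apply, LinearMap.proj_apply]
  let L : (T ν → ℂ) →ₗ[ℂ] ((S \ T n : Finset (ℕ × ℕ)) → ℂ) :=
    LinearMap.pi fun p => (MvPowerSeries.coeff (R := ℂ) (expo p.1.1 p.1.2)) ∘ₗ
      (LinearMap.mulRight ℂ f) ∘ₗ (MvPolynomial.coeToMvPowerSeries.algHom (σ := Fin 2) (R := ℂ) ℂ).toLinearMap ∘ₗ poly
  have hTS : T n ⊆ S := fun p hp => by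
    have := hS.triangle p.1 p.2 (mem_T.1 hp)
    simpa using this
  have hcard : (S \ T n).card + 1 = (T ν).card := by
    rw [Finset.card_sdiff_of_subset hTS, card_T, card_T, hS.card_eq]
    have h1 : 1 ≤ (ν + 1) * (ν + 2) / 2 := by
      have : 2 ≤ (ν + 1) * (ν + 2) := by nlinarith
      omega
    omega
  have hker : LinearMap.ker L ≠ ⊥ := by
    apply LinearMap.ker_ne_bot_of_finrank_lt
    rw [Module.finrank_fintype_fun_eq_card, Module.finrank_fintype_fun_eq_card, Fintype.card_coe, Fintype.card_coe]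
    omega
  obtain ⟨c, hc, hc0⟩ := (Submodule.ne_bot_iff _).1 hker
  have hcoef : ∀ p : T ν, coeff (expo p.1.1 p.1.2) (poly c) = c p := by
    intro p
    rw [hpoly, coeff_sum, Finset.sum_eq_single p]
    · rw [coeff_smul, coeff_monomial, if_pos rfl, smul_eq_mul, mul_one]
    · intro q _ hq
      rw [coeff_smul, coeff_monomial, if_neg, smul_zero]
      intro h
      exact hq (Subtype.ext (expo_inj h))
    · intro h; exact absurd (Finset.mem_univ _) h
  refine ⟨∑ p ∈ T n, monomial (expo p.1 p.2) (MvPowerSeries.coeff (expo p.1 p.2)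
    ((poly c : MvPowerSeries (Fin 2) ℂ) * f)), poly c, ?_, ?_, ?_, ?_⟩
  · refine totalDegree_finsetSum_le fun p hp => ?_
    refine (totalDegree_monomial_le _ _).trans ?_
    rw [expo_deg]; exact mem_T.1 hp
  · rw [hpoly]
    refine totalDegree_finsetSum_le fun p _ => ?_
    refine (totalDegree_smul_le _ _).trans ?_
    refine (totalDegree_monomial_le _ _).trans ?_
    rw [expo_deg]; exact mem_T.1 p.2
  · intro h
    apply hc0
    funext p
    rw [← hcoef p, h]; simp
  · intro p hp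
    rw [map_sub, MvPolynomial.coeff_coe, coeff_sum]
    by_cases hpT : p ∈ T n
    · rw [Finset.sum_eq_single p]
      · rw [coeff_monomial, if_pos rfl, sub_self]
      · intro q _ hq
        rw [coeff_monomial, if_neg]
        intro h
        exact hq (expo_inj h)
      · intro h; exact absurd hpT h
    · rw [Finset.sum_eq_zero, sub_zero]
      · have h1 := congrFun (LinearMap.mem_ker.1 hc) ⟨p, Finset.mem_sdiff.2 ⟨hp, hpT⟩⟩
        exact h1
      · intro q hq
        rw [coeff_monomial, if_neg]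
        intro h
        exact hpT ((expo_inj h) ▸ hq)

/-- the function `1/(1 - z₁^ν)` -/
noncomputable def GG (ν : ℕ) : MvPolynomial (Fin 2) ℂ := 1 - X 0 ^ ν

noncomputable def ff (ν : ℕ) : MvPowerSeries (Fin 2) ℂ := 1 * (GG ν : MvPowerSeries (Fin 2) ℂ)⁻¹

lemma GG_cc {ν : ℕ} (hν : 2 ≤ ν) : constantCoeff (GG ν) = 1 := by
  unfold GG
  rw [map_sub, map_one, map_pow, constantCoeff_X, zero_pow (by omega), sub_zero]

lemma GG_deg {ν : ℕ} (hν : 2 ≤ ν) : (GG ν).totalDegree = ν := by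
  apply le_antisymm
  · unfold GG
    refine (totalDegree_sub _ _).trans ?_
    rw [totalDegree_one, totalDegree_X_pow]; simp
  · have h1 : coeff (Finsupp.single 0 ν) (GG ν) = -1 := by
      unfold GG
      rw [coeff_sub, coeff_one, if_neg, coeff_X_pow, if_pos rfl, zero_sub]
      intro h
      have := congrArg (fun f => f 0) h
      simp at this
      omega
    have h2 : Finsupp.single 0 ν ∈ (GG ν).support := by
      rw [mem_support_iff, h1]; norm_num
    have := le_totalDegree h2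
    simpa using this

lemma ff_mul {ν : ℕ} (hν : 2 ≤ ν) : ff ν * (GG ν : MvPowerSeries (Fin 2) ℂ) = 1 := by
  unfold ff
  rw [one_mul, MvPowerSeries.inv_mul_cancel]
  have : MvPowerSeries.constantCoeff (GG ν : MvPowerSeries (Fin 2) ℂ) = 1 := by
    rw [← GG_cc hν]; rfl
  rw [this]; exact one_ne_zero

noncomputable def tt (ν q : ℕ) : MvPolynomial (Fin 2) ℂ := ∑ i ∈ Finset.range q, (X 0 ^ ν) ^ i

lemma ff_tt {ν : ℕ} (hν : 2 ≤ ν) (q : ℕ) : ff ν - (tt ν q : MvPowerSeries (Fin 2) ℂ) =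
    (MvPowerSeries.X 0) ^ (ν * q) * ff ν := by
  have h1 : tt ν q * GG ν = 1 - X 0 ^ (ν * q) := by
    unfold tt GG
    rw [pow_mul]
    exact geom_sum_mul_neg _ _
  have h2 : (tt ν q : MvPowerSeries (Fin 2) ℂ) * (GG ν : MvPowerSeries (Fin 2) ℂ) =
      1 - (MvPowerSeries.X 0) ^ (ν * q) := by
    rw [← MvPolynomial.coe_mul, h1]
    have e1 : ((1 - X 0 ^ (ν * q) : MvPolynomial (Fin 2) ℂ) : MvPowerSeries (Fin 2) ℂ) =
          MvPolynomial.coeToMvPowerSeries.ringHom (1 - X 0 ^ (ν * q) : MvPolynomial (Fin 2) ℂ) := rfl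
    rw [e1, map_sub, map_one, map_pow]
    simp
  calc ff ν - (tt ν q : MvPowerSeries (Fin 2) ℂ) =
      ff ν - (tt ν q : MvPowerSeries (Fin 2) ℂ) * (ff ν * (GG ν : MvPowerSeries (Fin 2) ℂ)) := by
        rw [ff_mul hν, mul_one]
    _ = ff ν - ((tt ν q : MvPowerSeries (Fin 2) ℂ) * (GG ν : MvPowerSeries (Fin 2) ℂ)) * ff ν := by ring
    _ = _ := by rw [h2]; ring

/-- pigeonhole: some corner is missing -/
lemma missing {n ν : ℕ} (hν : 2 ≤ ν) (hn : ν ≤ n) {S : Finset (ℕ × ℕ)} (hS : IsInterpolationSet n ν S) :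
    ∃ k ≤ ν, (n + ν - k, k) ∉ S := by
  classical
  by_contra hcon
  push Not at hcon
  let E : Finset (ℕ × ℕ) := (Finset.range (ν + 1) ×ˢ Finset.range ν).image (fun p => (n - p.1 + 1 + p.2, p.1))
  have hE : E.card = (ν + 1) * ν := by
    rw [Finset.card_image_of_injOn, Finset.card_product, Finset.card_range, Finset.card_range]
    intro p _ q _ h
    simp only [Prod.mk.injEq] at h
    refine Prod.ext h.2 ?_
    have h1 := h.1
    rw [h.2] at h1
    omega
  have hES : E ⊆ S := by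
    intro x hx
    rw [Finset.mem_image] at hx
    obtain ⟨p, hp, rfl⟩ := hx
    rw [Finset.mem_product, Finset.mem_range, Finset.mem_range] at hp
    refine hS.lower _ _ _ _ (hcon p.1 (by omega)) (by omega) le_rfl
  have hTS : T n ⊆ S := fun p hp => by
    have := hS.triangle p.1 p.2 (mem_T.1 hp)
    simpa using this
  have hdis : Disjoint (T n) E := by
    rw [Finset.disjoint_left]
    intro x hx hx2
    rw [mem_T] at hx
    rw [Finset.mem_image] at hx2
    obtain ⟨p, hp, rfl⟩ := hx2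
    rw [Finset.mem_product, Finset.mem_range, Finset.mem_range] at hp
    simp only at hx
    omega
  have h1 := Finset.card_le_card (Finset.union_subset hTS hES)
  rw [Finset.card_union_of_disjoint hdis, card_T, hE, hS.card_eq] at h1
  have h2 : (ν + 1) * (ν + 2) / 2 ≤ (ν + 1) * ν := by
    apply Nat.div_le_of_le_mul
    nlinarith
  have h3 : 1 ≤ (ν + 1) * (ν + 2) / 2 := by
    have : 2 ≤ (ν + 1) * (ν + 2) := by nlinarith
    omega
  omega

/-- the bad approximants -/
lemma bad {ν : ℕ} (hν : 2 ≤ ν) {q : ℕ} (hq : 1 ≤ q) {S : Finset (ℕ × ℕ)}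
    (hS : IsInterpolationSet (ν * q) ν S) :
    ∃ k ≤ ν, IsApproximant (ν * q) ν S (ff ν) (monomial (expo (ν - k) k) 1 * tt ν q)
      (monomial (expo (ν - k) k) 1) := by
  have hn : ν ≤ ν * q := Nat.le_mul_of_pos_right ν hq
  obtain ⟨k, hk, hkS⟩ := missing hν hn hS
  refine ⟨k, hk, ?_, ?_, ?_, ?_⟩
  · unfold tt
    rw [Finset.mul_sum]
    refine totalDegree_finsetSum_le fun i hi => ?_
    refine (totalDegree_mul _ _).trans ?_
    have h1 : (monomial (expo (ν - k) k) (1:ℂ)).totalDegree ≤ ν := by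
      refine (totalDegree_monomial_le _ _).trans ?_
      rw [expo_deg]; omega
    have h2 : (((X 0 : MvPolynomial (Fin 2) ℂ) ^ ν) ^ i).totalDegree = ν * i := by
      rw [← pow_mul, totalDegree_X_pow]
    rw [h2]
    rw [Finset.mem_range] at hi
    have : ν + ν * i ≤ ν * q := by
      have : ν * (i + 1) ≤ ν * q := Nat.mul_le_mul_left ν hi
      rw [mul_add, mul_one] at this
      omega
    omega
  · refine (totalDegree_monomial_le _ _).trans ?_
    rw [expo_deg]; omega
  · rw [Ne, monomial_eq_zero]; exact one_ne_zero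
  · intro p hp
    have e1 : ((monomial (expo (ν - k) k) (1:ℂ) : MvPolynomial (Fin 2) ℂ) : MvPowerSeries (Fin 2) ℂ) * ff ν -
        ((monomial (expo (ν - k) k) (1:ℂ) * tt ν q : MvPolynomial (Fin 2) ℂ) : MvPowerSeries (Fin 2) ℂ) =
        MvPowerSeries.monomial (expo (ν * q + ν - k) k) (1:ℂ) * ff ν := by
      rw [MvPolynomial.coe_mul, ← mul_sub, ff_tt hν, MvPolynomial.coe_monomial, MvPowerSeries.X_pow_eq,
        ← mul_assoc, MvPowerSeries.monomial_mul_monomial, mul_one]
      congr 3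
      unfold expo
      have : ν * q + ν - k = (ν - k) + ν * q := by omega
      rw [this, Finsupp.single_add]
      abel
    rw [e1, MvPowerSeries.coeff_monomial_mul, if_neg]
    intro h
    rw [expo_le] at h
    exact hkS (hS.lower _ _ _ _ hp h.1 h.2)

lemma value_one (z : Fin 2 → ℂ) : value 1 z = 1 := by
  classical
  unfold value
  rw [tsum_eq_single 0]
  · simp
  · intro m hm
    rw [MvPowerSeries.coeff_one, if_neg hm, zero_mul]

lemma entire_one : IsEntire 1 := by
  classical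
  intro z
  refine summable_of_ne_finset_zero (s := {0}) ?_
  intro m hm
  rw [Finset.mem_singleton] at hm
  rw [MvPowerSeries.coeff_one, if_neg hm, zero_mul]

theorem main (ν : ℕ) (hν : 2 ≤ ν) :
    IsEntire 1 ∧ (1 - X 0 ^ ν : MvPolynomial (Fin 2) ℂ).totalDegree = ν ∧
    constantCoeff (1 - X 0 ^ ν : MvPolynomial (Fin 2) ℂ) ≠ 0 ∧
    ∀ S : ℕ → Finset (ℕ × ℕ), (∀ n, IsInterpolationSet n ν (S n)) →
      ∃ P Q : ℕ → MvPolynomial (Fin 2) ℂ,
        (∀ n, IsApproximant n ν (S n)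
          (1 * ((1 - X 0 ^ ν : MvPolynomial (Fin 2) ℂ) : MvPowerSeries (Fin 2) ℂ)⁻¹) (P n) (Q n)) ∧
        ¬ ConvergesOff 1 (1 - X 0 ^ ν) P Q ∧
        ∃ z : Fin 2 → ℂ, eval z (1 - X 0 ^ ν : MvPolynomial (Fin 2) ℂ) ≠ 0 ∧
          ∀ C : ℝ, ∃ᶠ n in atTop, eval z (Q n) ≠ 0 ∧ C < ‖eval z (P n) / eval z (Q n)‖ := by
  classical
  refine ⟨entire_one, GG_deg hν, by have := GG_cc hν; unfold GG at this; rw [this]; exact one_ne_zero, ?_⟩
  intro S hS
  have hex : ∀ n, ∃ P Q, IsApproximant n ν (S n) (ff ν) P Q ∧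
      (∀ q, 1 ≤ q → n = ν * q → ∃ k ≤ ν, P = monomial (expo (ν - k) k) 1 * tt ν q ∧ Q = monomial (expo (ν - k) k) 1) := by
    intro n
    by_cases h : ∃ q, 1 ≤ q ∧ n = ν * q
    · obtain ⟨q, hq, rfl⟩ := h
      obtain ⟨k, hk, h1⟩ := bad hν hq (hS (ν * q))
      refine ⟨_, _, h1, fun q' _ hq' => ⟨k, hk, ?_⟩⟩
      have : q = q' := Nat.eq_of_mul_eq_mul_left (by omega) hq'
      rw [this]; exact ⟨rfl, rfl⟩
    · obtain ⟨P, Q, h1⟩ := exists_approx (hS n) (ff ν)
      exact ⟨P, Q, h1, fun q hq hq' => absurd ⟨q, hq, hq'⟩ h⟩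
  choose P Q hPQ hbad using hex
  set z : Fin 2 → ℂ := ![2, 1] with hz
  have hG : eval z (1 - X 0 ^ ν : MvPolynomial (Fin 2) ℂ) ≠ 0 := by
    rw [map_sub, map_one, map_pow, eval_X, hz]
    simp only [Matrix.cons_val_zero]
    rw [sub_ne_zero]
    intro h
    have h2 := congrArg norm h
    rw [norm_one, norm_pow, Complex.norm_ofNat] at h2
    have : (1:ℝ) < 2 ^ ν := one_lt_pow₀ (by norm_num) (by omega)
    linarith
  have hval : ∀ q, 1 ≤ q → eval z (Q (ν * q)) ≠ 0 ∧ (q : ℝ) ≤ ‖eval z (P (ν * q)) / eval z (Q (ν * q))‖ := by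
    intro q hq
    obtain ⟨k, hk, hP, hQ⟩ := hbad (ν * q) q hq rfl
    have hQz : eval z (Q (ν * q)) ≠ 0 := by
      rw [hQ, eval_monomial, one_mul]
      unfold Finsupp.prod
      refine Finset.prod_ne_zero_iff.2 fun i _ => pow_ne_zero _ ?_
      rw [hz]
      fin_cases i <;> simp
    refine ⟨hQz, ?_⟩
    have e1 : eval z (P (ν * q)) / eval z (Q (ν * q)) = ∑ i ∈ Finset.range q, ((2:ℂ) ^ ν) ^ i := by
      rw [hP, map_mul, ← hQ, mul_div_cancel_left₀ _ hQz]
      unfold tt
      rw [map_sum]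
      refine Finset.sum_congr rfl fun i _ => ?_
      rw [map_pow, map_pow, eval_X, hz]; rfl
    rw [e1]
    have e2 : (∑ i ∈ Finset.range q, ((2:ℂ) ^ ν) ^ i) = ((∑ i ∈ Finset.range q, ((2:ℝ) ^ ν) ^ i : ℝ) : ℂ) := by
      push_cast; rfl
    rw [e2, Complex.norm_real, Real.norm_of_nonneg (Finset.sum_nonneg fun i _ => by positivity)]
    calc (q : ℝ) = ∑ i ∈ Finset.range q, (1:ℝ) := by simp
      _ ≤ _ := Finset.sum_le_sum fun i _ => one_le_pow₀ (one_le_pow₀ (by norm_num))
  have hfreq : ∀ C : ℝ, ∃ᶠ n in atTop, eval z (Q n) ≠ 0 ∧ C < ‖eval z (P n) / eval z (Q n)‖ := by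
    intro C
    rw [frequently_atTop]
    intro N
    obtain ⟨q0, hq0⟩ := exists_nat_gt C
    have hq : 1 ≤ max (max q0 N) 1 := le_max_right _ _
    refine ⟨ν * max (max q0 N) 1, ?_, (hval _ hq).1, lt_of_lt_of_le ?_ (hval _ hq).2⟩
    · have : max (max q0 N) 1 ≤ ν * max (max q0 N) 1 := Nat.le_mul_of_pos_left _ (by omega)
      exact le_trans (le_trans (le_max_right q0 N) (le_max_left _ _)) this
    · refine lt_of_lt_of_le hq0 ?_
      exact_mod_cast le_trans (le_max_left q0 N) (le_max_left _ _)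
  refine ⟨P, Q, hPQ, ?_, z, hG, hfreq⟩
  intro hconv
  obtain ⟨-, h2⟩ := hconv {z} isCompact_singleton (by intro w hw; rw [Set.mem_singleton_iff.1 hw]; exact hG)
  have h3 := h2.tendsto_at (Set.mem_singleton z)
  have h4 := h3.norm
  have h5 := h4.eventually (gt_mem_nhds (lt_add_one _))
  obtain ⟨n, hn1, hn2⟩ := ((hfreq _).and_eventually h5).exists
  exact absurd hn2 (not_lt.2 hn1.2.le)

end Pool.Agent.H7.Mont
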